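import Pool.Agent.helper82.CH.SpecA

/-!
# Project CH, row NVS: non-vanishing at 1
-/

set_option autoImplicit false

open NumberField Complex Pool.Agent.UN

namespace Pool.Agent.CH

/-- the weight `p^(-s)` as a complex number -/
theorem NVS_w (p : Nat.Primes) (s : ℝ) : (((p : ℕ) : ℂ) ^ (-(s : ℂ))) = (((((p : ℕ) : ℝ) ^ (-s) : ℝ)) : ℂ) := by
  rw [Complex.ofReal_cpow (by positivity)]
  push_cast
  rfl

theorem NVS_w1 (p : Nat.Primes) (s : ℝ) (hs : 0 ≤ s) : (((p : ℕ) : ℝ) ^ (-s)) ≤ 1 := by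
  have h1 : (1 : ℝ) ≤ ((p : ℕ) : ℝ) := by exact_mod_cast p.2.one_lt.le
  exact Real.rpow_le_one_of_one_le_of_nonpos h1 (by linarith)

theorem NVS_w0 (p : Nat.Primes) (s : ℝ) : 0 ≤ (((p : ℕ) : ℝ) ^ (-s)) := by positivity

/-- the primes dividing `m` -/
theorem NVS_fin (m : ℕ) (hm : 0 < m) : {p : Nat.Primes | (p : ℕ) ∣ m}.Finite := by
  have h1 : {n : ℕ | n ∣ m}.Finite := (Set.finite_Iic m).subset fun n hn => Nat.le_of_dvd hm hn
  exact Set.Finite.preimage (f := (fun p : Nat.Primes => (p : ℕ))) (Function.Injective.injOn Subtype.val_injective) h1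

/-- a finite modification changes the sum by a bounded amount -/
theorem NVS_mod (m : ℕ) (hm : 0 < m) (f g : Nat.Primes → ℂ) (h : ∀ p : Nat.Primes, ¬ (p : ℕ) ∣ m → f p = g p) :
    ∃ C : ℝ, 0 ≤ C ∧ ∀ s : ℝ, 0 ≤ s → Summable (fun p : Nat.Primes => f p * (((p : ℕ) : ℂ) ^ (-(s : ℂ)))) →
      Summable (fun p : Nat.Primes => g p * (((p : ℕ) : ℂ) ^ (-(s : ℂ)))) ∧
      ‖(∑' p : Nat.Primes, f p * (((p : ℕ) : ℂ) ^ (-(s : ℂ)))) - ∑' p : Nat.Primes, g p * (((p : ℕ) : ℂ) ^ (-(s : ℂ)))‖ ≤ C := by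
  set S := (NVS_fin m hm).toFinset with hS
  refine ⟨∑ p ∈ S, ‖f p - g p‖, Finset.sum_nonneg fun _ _ => norm_nonneg _, fun s hs hf => ?_⟩
  have h0 : ∀ p : Nat.Primes, p ∉ S → f p - g p = 0 := fun p hp => by
    have hp' : ¬ (p : ℕ) ∣ m := fun h' => hp (by rw [hS, Set.Finite.mem_toFinset]; exact h')
    rw [h p hp', sub_self]
  have h1 : Summable (fun p : Nat.Primes => (f p - g p) * (((p : ℕ) : ℂ) ^ (-(s : ℂ)))) :=
    summable_of_ne_finset_zero (s := S) fun p hp => by rw [h0 p hp, zero_mul]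
  have h2 : Summable (fun p : Nat.Primes => g p * (((p : ℕ) : ℂ) ^ (-(s : ℂ)))) := by
    refine (hf.sub h1).congr fun p => ?_
    ring
  refine ⟨h2, ?_⟩
  rw [← hf.tsum_sub h2]
  have h3 : ∑' p : Nat.Primes, (f p * (((p : ℕ) : ℂ) ^ (-(s : ℂ))) - g p * (((p : ℕ) : ℂ) ^ (-(s : ℂ)))) =
      ∑ p ∈ S, (f p * (((p : ℕ) : ℂ) ^ (-(s : ℂ))) - g p * (((p : ℕ) : ℂ) ^ (-(s : ℂ)))) :=
    tsum_eq_sum fun p hp => by rw [← sub_mul, h0 p hp, zero_mul]
  rw [h3]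
  refine (norm_sum_le _ _).trans (Finset.sum_le_sum fun p _ => ?_)
  rw [← sub_mul, norm_mul, NVS_w, Complex.norm_real, Real.norm_of_nonneg (NVS_w0 p s)]
  exact mul_le_of_le_one_right (norm_nonneg _) (NVS_w1 p s hs)

/-- an entire function is bounded on `[1, 2]` -/
theorem NVS_bd (L : ℂ → ℂ) (hL : Differentiable ℂ L) : ∃ C : ℝ, 1 ≤ C ∧ ∀ s : ℝ, 1 ≤ s → s ≤ 2 → ‖L s‖ ≤ C := by
  have h1 : IsCompact (Set.Icc (1 : ℝ) 2) := isCompact_Icc
  have h2 : ContinuousOn (fun s : ℝ => L s) (Set.Icc (1 : ℝ) 2) :=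
    (hL.continuous.comp Complex.continuous_ofReal).continuousOn
  obtain ⟨C, hC⟩ := h1.exists_bound_of_continuousOn h2
  exact ⟨max 1 C, le_max_left _ _, fun s hs1 hs2 => (hC s ⟨hs1, hs2⟩).trans (le_max_right _ _)⟩

/-- an entire function with a zero at `1` is `O(s - 1)` -/
theorem NVS_zero (L : ℂ → ℂ) (hL : Differentiable ℂ L) (h0 : L 1 = 0) :
    ∃ C : ℝ, 1 ≤ C ∧ ∀ s : ℝ, 1 ≤ s → s ≤ 2 → ‖L s‖ ≤ C * (s - 1) := by
  have h1 : IsCompact (Set.Icc (1 : ℝ) 2) := isCompact_Icc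
  have hc : Continuous (dslope L 1) := by
    rw [← continuousOn_univ]
    exact (continuousOn_dslope Filter.univ_mem).2 ⟨hL.continuous.continuousOn, hL 1⟩
  have h2 : ContinuousOn (fun s : ℝ => dslope L 1 s) (Set.Icc (1 : ℝ) 2) :=
    (hc.comp Complex.continuous_ofReal).continuousOn
  obtain ⟨C, hC⟩ := h1.exists_bound_of_continuousOn h2
  refine ⟨max 1 C, le_max_left _ _, fun s hs1 hs2 => ?_⟩
  have h3 := sub_smul_dslope L 1 (s : ℂ)
  rw [h0, sub_zero] at h3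
  rw [← h3, norm_smul]
  have h4 : ‖(s : ℂ) - 1‖ = s - 1 := by
    rw [← Complex.ofReal_one, ← Complex.ofReal_sub, Complex.norm_real, Real.norm_of_nonneg (by linarith)]
  rw [h4, mul_comm]
  exact mul_le_mul_of_nonneg_right ((hC s ⟨hs1, hs2⟩).trans (le_max_right _ _)) (by linarith)

/-- `Re ∑ cc χ p p^(-s) ≤ log ‖LSeries (cc χ) s‖ + C` -/
theorem NVS_log (hCID : CID_stmt) (hCSM : CSM_stmt) (hEXL : EXL_stmt) (hLGB : LGB_stmt)
    (F : Type) [Field F] [NumberField F] (χ : Ideal (𝓞 F) → ℂ) (hχ : CM χ) :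
    ∃ C : ℝ, ∀ s : ℝ, 1 < s → Summable (fun p : Nat.Primes => cc χ p * (((p : ℕ) : ℂ) ^ (-(s : ℂ)))) ∧
      0 < ‖LSeries (cc χ) s‖ ∧
      (∑' p : Nat.Primes, cc χ p * (((p : ℕ) : ℂ) ^ (-(s : ℂ)))).re ≤ Real.log ‖LSeries (cc χ) s‖ + C := by
  obtain ⟨C, hC⟩ := hLGB F
  refine ⟨C, fun s hs => ?_⟩
  obtain ⟨h1, -, h3, -⟩ := hC χ hχ s hs
  have hc1 : cc χ 1 = 1 := by
    have h : idl F 1 = {⊤} := by
      ext a
      rw [idl, Set.Finite.mem_toFinset, Finset.mem_singleton, Set.mem_ofPred_eq, Ideal.absNorm_eq_one_iff]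
    rw [cc, h, Finset.sum_singleton, hχ.one]
  have h4 := (hEXL (cc χ) (zz χ) hc1 (fun s hs => ⟨(hCSM F χ hχ s hs).1, (hCSM F χ hχ s hs).2.1⟩)
    (hCID F χ hχ) (fun s hs => (hCSM F χ hχ s hs).2.2) s (by simpa using hs)).1
  have h5 : Complex.exp (LSeries (lg χ) s) = LSeries (cc χ) s := h4
  have h6 : ‖LSeries (cc χ) s‖ = Real.exp (LSeries (lg χ) s).re := by
    rw [← h5, Complex.norm_exp]
  refine ⟨h1, by rw [h6]; exact Real.exp_pos _, ?_⟩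
  rw [h6, Real.log_exp]
  have h7 := (Complex.abs_re_le_norm (LSeries (lg χ) s - ∑' p : Nat.Primes, cc χ p * (((p : ℕ) : ℂ) ^ (-(s : ℂ))))).trans h3
  rw [Complex.sub_re] at h7
  linarith [(abs_le.1 h7).1]

/-- the upper bound for one character, `a = 1, 0, -1` -/
theorem NVS_up (hCID : CID_stmt) (hCSM : CSM_stmt) (hEXL : EXL_stmt) (hLGB : LGB_stmt)
    (F : Type) [Field F] [NumberField F] (m : ℕ) (hm : 0 < m) (ψ : DirichletCharacter ℂ m)
    (χ : Ideal (𝓞 F) → ℂ) (hχ : CM χ)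
    (hp : ∀ p : ℕ, p.Prime → ¬ p ∣ m → cc χ p = ψ ((p : ℕ) : ZMod m) * (nd F p : ℂ))
    (L : ℂ → ℂ) (hL : Differentiable ℂ L) (hLs : ∀ s : ℂ, 1 < s.re → LSeries (cc χ) s = L s) :
    (∃ C : ℝ, ∀ s : ℝ, 1 < s → s ≤ 2 →
      (∑' p : Nat.Primes, (ψ ((p : ℕ) : ZMod m) * (nd F p : ℂ)) * (((p : ℕ) : ℂ) ^ (-(s : ℂ)))).re ≤ C) ∧
    (L 1 = 0 → ∃ C : ℝ, ∀ s : ℝ, 1 < s → s ≤ 2 →
      (∑' p : Nat.Primes, (ψ ((p : ℕ) : ZMod m) * (nd F p : ℂ)) * (((p : ℕ) : ℂ) ^ (-(s : ℂ)))).re ≤ Real.log (s - 1) + C) := by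
  obtain ⟨C₁, hC₁⟩ := NVS_log hCID hCSM hEXL hLGB F χ hχ
  obtain ⟨C₂, hC₂, hmod⟩ := NVS_mod m hm (fun p => cc χ p) (fun p => ψ ((p : ℕ) : ZMod m) * (nd F p : ℂ))
    (fun p hpm => hp p p.2 hpm)
  have key : ∀ s : ℝ, 1 < s →
      (∑' p : Nat.Primes, (ψ ((p : ℕ) : ZMod m) * (nd F p : ℂ)) * (((p : ℕ) : ℂ) ^ (-(s : ℂ)))).re ≤
        Real.log ‖L s‖ + (C₁ + C₂) ∧ 0 < ‖L s‖ := fun s hs => by
    obtain ⟨h1, h2, h3⟩ := hC₁ s hs
    obtain ⟨-, h4⟩ := hmod s (by linarith) h1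
    rw [hLs s (by simpa using hs)] at h2 h3
    have h5 := (Complex.abs_re_le_norm _).trans h4
    rw [Complex.sub_re] at h5
    exact ⟨by linarith [(abs_le.1 h5).1], h2⟩
  refine ⟨?_, fun h0 => ?_⟩
  · obtain ⟨B, hB1, hB⟩ := NVS_bd L hL
    refine ⟨Real.log B + (C₁ + C₂), fun s hs1 hs2 => ?_⟩
    obtain ⟨h1, h2⟩ := key s hs1
    linarith [Real.log_le_log h2 (hB s hs1.le hs2)]
  · obtain ⟨B, hB1, hB⟩ := NVS_zero L hL h0
    refine ⟨Real.log B + (C₁ + C₂), fun s hs1 hs2 => ?_⟩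
    obtain ⟨h1, h2⟩ := key s hs1
    have h3 := Real.log_le_log h2 (hB s hs1.le hs2)
    rw [Real.log_mul (by linarith) (by linarith)] at h3
    linarith

/-- the trivial characters -/
theorem NVS_tr (hKFV : KFV_stmt) (F : Type) [Field F] [NumberField F] (m : ℕ) (ψ : DirichletCharacter ℂ m) :
    ∃ C δ : ℝ, 0 < δ ∧ ∀ s : ℝ, 1 < s → s < 1 + δ →
      Summable (fun p : Nat.Primes => (ψ ((p : ℕ) : ZMod m) * (nd F p : ℂ)) * (((p : ℕ) : ℂ) ^ (-(s : ℂ)))) ∧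
      (∑' p : Nat.Primes, (ψ ((p : ℕ) : ZMod m) * (nd F p : ℂ)) * (((p : ℕ) : ℂ) ^ (-(s : ℂ)))).re ≤
        - Real.log (s - 1) + C := by
  obtain ⟨C, δ, hδ, h⟩ := hKFV F
  refine ⟨C, δ, hδ, fun s hs1 hs2 => ?_⟩
  obtain ⟨h1, h2⟩ := h s hs1 hs2
  have hb : ∀ p : Nat.Primes, ‖(ψ ((p : ℕ) : ZMod m) * (nd F p : ℂ)) * (((p : ℕ) : ℂ) ^ (-(s : ℂ)))‖ ≤
      (nd F p : ℝ) * ((p : ℕ) : ℝ) ^ (-s) := fun p => by
    rw [norm_mul, norm_mul, NVS_w, Complex.norm_real, Real.norm_of_nonneg (NVS_w0 p s), Complex.norm_natCast]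
    have h3 := ψ.norm_le_one ((p : ℕ) : ZMod m)
    have h4 : (0 : ℝ) ≤ (nd F p : ℝ) * ((p : ℕ) : ℝ) ^ (-s) := by positivity
    nlinarith
  have hs := Summable.of_norm_bounded h1 hb
  refine ⟨hs, ?_⟩
  have h3 : ‖∑' p : Nat.Primes, (ψ ((p : ℕ) : ZMod m) * (nd F p : ℂ)) * (((p : ℕ) : ℂ) ^ (-(s : ℂ)))‖ ≤
      ∑' p : Nat.Primes, (nd F p : ℝ) * ((p : ℕ) : ℝ) ^ (-s) := tsum_of_norm_bounded h1.hasSum hb
  have h4 := (Complex.re_le_norm _).trans h3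
  linarith [(abs_le.1 h2).2]

open Classical in
theorem NVS (hCID : CID_stmt) (hCSM : CSM_stmt) (hEXL : EXL_stmt) (hLGB : LGB_stmt) (hLCH : LCH_stmt)
    (hKFV : KFV_stmt) (hMFN : MFN_stmt) (hTRV : TRV_stmt) (hHCD : HCD_stmt) : NVS_stmt := by
  intro F M _ _ _ _ _ m z ψ₀ χ₀ L₀ hm hz hadj hT₀ hχ₀ hp₀ hL₀ hLs₀ hzero
  have : NeZero m := ⟨hm.ne'⟩
  -- the sums
  set T : DirichletCharacter ℂ m → ℝ → ℂ := fun ψ s =>
    ∑' p : Nat.Primes, (ψ ((p : ℕ) : ZMod m) * (nd F p : ℂ)) * (((p : ℕ) : ℂ) ^ (-(s : ℂ))) with hTdef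
  set a : DirichletCharacter ℂ m → ℝ := fun ψ => (if Triv F ψ then 1 else 0) - (if ψ = ψ₀ then 1 else 0) with ha
  -- upper bounds
  have hup : ∀ ψ : DirichletCharacter ℂ m, ∃ C δ : ℝ, 0 < δ ∧ ∀ s : ℝ, 1 < s → s < 1 + δ →
      (T ψ s).re ≤ a ψ * (- Real.log (s - 1)) + C := fun ψ => by
    by_cases h1 : Triv F ψ
    · obtain ⟨C, δ, hδ, h⟩ := NVS_tr hKFV F m ψ
      refine ⟨C, δ, hδ, fun s hs1 hs2 => ?_⟩
      have hne : ψ ≠ ψ₀ := fun h' => hT₀ (h' ▸ h1)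
      simp only [ha, if_pos h1, if_neg hne, sub_zero, one_mul]
      exact (h s hs1 hs2).2
    · by_cases h2 : ψ = ψ₀
      · subst h2
        obtain ⟨C, hC⟩ := (NVS_up hCID hCSM hEXL hLGB F m hm ψ χ₀ hχ₀ hp₀ L₀ hL₀ hLs₀).2 hzero
        refine ⟨C, 1, one_pos, fun s hs1 hs2 => ?_⟩
        simp only [ha, if_neg h1, if_true, zero_sub, neg_mul, one_mul, neg_neg]
        exact hC s hs1 (by linarith)
      · obtain ⟨χ, hχ, hp, hL⟩ := hLCH F m ψ hm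
        obtain ⟨L, hL1, hL2⟩ := hL h1
        obtain ⟨C, hC⟩ := (NVS_up hCID hCSM hEXL hLGB F m hm ψ χ hχ hp L hL1 hL2).1
        refine ⟨C, 1, one_pos, fun s hs1 hs2 => ?_⟩
        simp only [ha, if_neg h1, if_neg h2, sub_zero, zero_mul, zero_add]
        exact hC s hs1 (by linarith)
  choose C δ hδ hC using hup
  obtain ⟨CM', δM, hδM, hM⟩ := hKFV M
  obtain ⟨CF, δF, hδF, hF⟩ := hKFV F
  -- the degree
  have hh : 0 < Module.finrank F M := by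
    have : FiniteDimensional F M := Module.Finite.of_restrictScalars_finite ℚ F M
    exact Module.finrank_pos
  set h : ℝ := (Module.finrank F M : ℝ) with hhdef
  have hh0 : 0 < h := by rw [hhdef]; exact_mod_cast hh
  set φ : ℝ := (m.totient : ℝ) with hφ
  have hφ0 : 0 ≤ φ := by positivity
  -- the number of trivial characters
  have hcount : (∑ ψ : DirichletCharacter ℂ m, a ψ) ≤ φ / h - 1 := by
    have h1 : (∑ ψ : DirichletCharacter ℂ m, a ψ) = (Fintype.card {ψ : DirichletCharacter ℂ m // Triv F ψ} : ℝ) - 1 := by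
      simp only [ha, Finset.sum_sub_distrib, Finset.sum_ite_eq', Finset.mem_univ, if_true]
      rw [Fintype.card_subtype, Finset.sum_boole]
    have h2 : Nat.card {ψ : DirichletCharacter ℂ m // Triv F ψ} ≤
        Nat.card {ψ : DirichletCharacter ℂ m // ∀ (g : M ≃ₐ[F] M) (r : ℕ), g z = z ^ r → ψ ((r : ℕ) : ZMod m) = 1} :=
      Nat.card_le_card_of_injective (fun ψ => ⟨ψ.1, hTRV F M m z ψ.1 hm hz hadj ψ.2⟩)
        (fun ψ ψ' hψ => Subtype.ext (by simpa using congrArg Subtype.val hψ))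
    have h3 := hHCD F M m z hm hz hadj
    have h4 : Nat.card {ψ : DirichletCharacter ℂ m // Triv F ψ} * Module.finrank F M ≤ m.totient :=
      (Nat.mul_le_mul_right _ h2).trans h3
    have h5 : ((Nat.card {ψ : DirichletCharacter ℂ m // Triv F ψ} : ℕ) : ℝ) * h ≤ φ := by
      rw [hhdef, hφ]; exact_mod_cast h4
    rw [h1, ← Nat.card_eq_fintype_card]
    have h6 := (le_div_iff₀ hh0).2 h5
    linarith
  -- the lower bound
  obtain ⟨S, hS⟩ : ∃ S : Finset Nat.Primes, S = (NVS_fin m hm).toFinset := ⟨_, rfl⟩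
  obtain ⟨B, hB⟩ : ∃ B : ℝ, B = ∑ p ∈ S, (nd M p : ℝ) := ⟨_, rfl⟩
  have hlow : ∀ s : ℝ, 1 < s → s < 1 + δM → s < 1 + δF →
      φ / h * (- Real.log (s - 1) - CM' - B) ≤ (∑ ψ : DirichletCharacter ℂ m, (T ψ s).re) := by
    intro s hs1 hs2 hs3
    obtain ⟨hM1, hM2⟩ := hM s hs1 hs2
    obtain ⟨hF1, hF2⟩ := hF s hs1 hs3
    -- the sum over the characters
    have hsum : ∑ ψ : DirichletCharacter ℂ m, T ψ s =
        ∑' p : Nat.Primes, (((if (((p : ℕ) : ZMod m)) = 1 then φ else 0) * (nd F p : ℝ) * ((p : ℕ) : ℝ) ^ (-s) : ℝ) : ℂ) := by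
      have hsm : ∀ ψ : DirichletCharacter ℂ m, Summable (fun p : Nat.Primes =>
          (ψ ((p : ℕ) : ZMod m) * (nd F p : ℂ)) * (((p : ℕ) : ℂ) ^ (-(s : ℂ)))) := fun ψ => by
        refine Summable.of_norm_bounded hF1 fun p => ?_
        rw [norm_mul, norm_mul, NVS_w, Complex.norm_real, Real.norm_of_nonneg (NVS_w0 p s), Complex.norm_natCast]
        have h3 := ψ.norm_le_one ((p : ℕ) : ZMod m)
        have h4 : (0 : ℝ) ≤ (nd F p : ℝ) * ((p : ℕ) : ℝ) ^ (-s) := by positivity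
        nlinarith
      rw [← Summable.tsum_finsetSum fun ψ _ => hsm ψ]
      refine tsum_congr fun p => ?_
      rw [← Finset.sum_mul, ← Finset.sum_mul, DirichletCharacter.sum_characters_eq, NVS_w]
      push_cast
      congr 2
      split_ifs <;> simp [hφ]
    have hre : (∑ ψ : DirichletCharacter ℂ m, (T ψ s).re) =
        ∑' p : Nat.Primes, (if (((p : ℕ) : ZMod m)) = 1 then φ else 0) * (nd F p : ℝ) * ((p : ℕ) : ℝ) ^ (-s) := by
      rw [← Complex.re_sum, hsum, ← Complex.ofReal_tsum, Complex.ofReal_re]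
    rw [hre]
    -- summability
    have hs4 : Summable (fun p : Nat.Primes => (if (((p : ℕ) : ZMod m)) = 1 then φ else 0) * (nd F p : ℝ) * ((p : ℕ) : ℝ) ^ (-s)) := by
      refine Summable.of_nonneg_of_le (fun p => ?_) (fun p => ?_) (hF1.mul_left φ)
      · split_ifs <;> positivity
      · have h4 : (0 : ℝ) ≤ (nd F p : ℝ) * ((p : ℕ) : ℝ) ^ (-s) := by positivity
        split_ifs
        · exact le_of_eq (by ring)
        · rw [zero_mul, zero_mul]; exact mul_nonneg hφ0 h4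
    have hs5 : Summable (fun p : Nat.Primes => if p ∈ S then φ / h * (nd M p : ℝ) else 0) :=
      summable_of_ne_finset_zero (s := S) fun p hp => if_neg hp
    have hle : ∀ p : Nat.Primes, φ / h * ((nd M p : ℝ) * ((p : ℕ) : ℝ) ^ (-s)) ≤
        (if (((p : ℕ) : ZMod m)) = 1 then φ else 0) * (nd F p : ℝ) * ((p : ℕ) : ℝ) ^ (-s) +
        (if p ∈ S then φ / h * (nd M p : ℝ) else 0) := fun p => by
      have hw0 := NVS_w0 p s
      have hw1 := NVS_w1 p s (by linarith)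
      by_cases hpm : (p : ℕ) ∣ m
      · have hpS : p ∈ S := by rw [hS, Set.Finite.mem_toFinset]; exact hpm
        rw [if_pos hpS]
        have h4 : (0 : ℝ) ≤ (if (((p : ℕ) : ZMod m)) = 1 then φ else 0) * (nd F p : ℝ) * ((p : ℕ) : ℝ) ^ (-s) := by
          split_ifs <;> positivity
        have h5 : φ / h * ((nd M p : ℝ) * ((p : ℕ) : ℝ) ^ (-s)) ≤ φ / h * ((nd M p : ℝ) * 1) := by gcongr
        linarith
      · have hpS : p ∉ S := by rw [hS, Set.Finite.mem_toFinset]; exact hpm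
        rw [if_neg hpS, add_zero]
        obtain ⟨h4, h5⟩ := hMFN F M m z hm hz p p.2 hpm
        by_cases h6 : nd M p = 0
        · rw [h6]
          simp only [Nat.cast_zero, zero_mul, mul_zero]
          split_ifs <;> positivity
        · have h7 : (((p : ℕ) : ZMod m)) = 1 := by
            have := (ZMod.natCast_eq_natCast_iff (p : ℕ) 1 m).2 (h5 h6)
            simpa using this
          rw [if_pos h7]
          have h8 : (nd M p : ℝ) ≤ h * (nd F p : ℝ) := by rw [hhdef]; exact_mod_cast h4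
          calc φ / h * ((nd M p : ℝ) * ((p : ℕ) : ℝ) ^ (-s)) ≤ φ / h * (h * (nd F p : ℝ) * ((p : ℕ) : ℝ) ^ (-s)) := by gcongr
            _ = φ * (nd F p : ℝ) * ((p : ℕ) : ℝ) ^ (-s) := by field_simp
    have h9 := Summable.tsum_le_tsum hle (hM1.mul_left (φ / h)) (hs4.add hs5)
    rw [tsum_mul_left, hs4.tsum_add hs5] at h9
    have h10 : ∑' p : Nat.Primes, (if p ∈ S then φ / h * (nd M p : ℝ) else 0) = φ / h * B := by
      rw [tsum_eq_sum (s := S) fun p hp => if_neg hp, hB, Finset.mul_sum]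
      exact Finset.sum_congr rfl fun p hp => if_pos hp
    rw [h10] at h9
    have h11 : - Real.log (s - 1) - CM' ≤ ∑' p : Nat.Primes, (nd M p : ℝ) * ((p : ℕ) : ℝ) ^ (-s) := by
      linarith [(abs_le.1 hM2).1]
    have h12 : φ / h * (- Real.log (s - 1) - CM') ≤ φ / h * ∑' p : Nat.Primes, (nd M p : ℝ) * ((p : ℕ) : ℝ) ^ (-s) :=
      mul_le_mul_of_nonneg_left h11 (by positivity)
    linarith
  -- all together
  obtain ⟨η, hη0, hη1, hηM, hηF, hηC⟩ : ∃ η : ℝ, 0 < η ∧ η ≤ 1 ∧ η ≤ δM ∧ η ≤ δF ∧ ∀ ψ, η ≤ δ ψ := by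
    obtain ⟨ε, hε0, hε⟩ : ∃ ε : ℝ, 0 < ε ∧ ∀ ψ, ε ≤ δ ψ := by
      refine ⟨Finset.univ.inf' ⟨ψ₀, Finset.mem_univ _⟩ δ, ?_, fun ψ => Finset.inf'_le _ (Finset.mem_univ _)⟩
      exact (Finset.lt_inf'_iff _).2 fun ψ _ => hδ ψ
    refine ⟨min (min 1 ε) (min δM δF), lt_min (lt_min one_pos hε0) (lt_min hδM hδF),
      (min_le_left _ _).trans (min_le_left _ _), (min_le_right _ _).trans (min_le_left _ _),
      (min_le_right _ _).trans (min_le_right _ _), fun ψ => ((min_le_left _ _).trans (min_le_right _ _)).trans (hε ψ)⟩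
  have hfinal : ∀ s : ℝ, 1 < s → s < 1 + η → - Real.log (s - 1) ≤ φ / h * (CM' + B) + ∑ ψ, C ψ := by
    intro s hs1 hs2
    have h1 := hlow s hs1 (by linarith) (by linarith)
    have h2 : (∑ ψ : DirichletCharacter ℂ m, (T ψ s).re) ≤
        ∑ ψ : DirichletCharacter ℂ m, (a ψ * (- Real.log (s - 1)) + C ψ) :=
      Finset.sum_le_sum fun ψ _ => hC ψ s hs1 (by linarith [hηC ψ])
    rw [Finset.sum_add_distrib, ← Finset.sum_mul] at h2
    have h3 : 0 ≤ - Real.log (s - 1) := by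
      have := Real.log_nonpos (show 0 ≤ s - 1 by linarith) (by linarith)
      linarith
    have h4 := mul_le_mul_of_nonneg_right hcount h3
    nlinarith
  -- contradiction
  obtain ⟨Y, hY⟩ : ∃ Y : ℝ, Y = max 1 (φ / h * (CM' + B) + ∑ ψ, C ψ + 1) := ⟨_, rfl⟩
  obtain ⟨u, hu⟩ : ∃ u : ℝ, u = min (η / 2) (Real.exp (-Y)) := ⟨_, rfl⟩
  have hu0 : 0 < u := by rw [hu]; exact lt_min (by linarith) (Real.exp_pos _)
  have huh : u ≤ η / 2 := by rw [hu]; exact min_le_left _ _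
  have huη : u < η := by linarith
  have hue : u ≤ Real.exp (-Y) := by rw [hu]; exact min_le_right _ _
  have h1u : (1 : ℝ) < 1 + u := by linarith
  have h2u : 1 + u < 1 + η := by linarith
  have h1 := hfinal (1 + u) h1u h2u
  rw [add_sub_cancel_left] at h1
  have h2 : Real.log u ≤ -Y := by
    have := Real.log_le_log hu0 hue
    rwa [Real.log_exp] at this
  have h3 : φ / h * (CM' + B) + ∑ ψ, C ψ + 1 ≤ Y := by rw [hY]; exact le_max_right _ _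
  linarith

end Pool.Agent.CH
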