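import Pool.Agent.helper82.CH.SpecN

/-!
# Project CH, row EPR: degree one primes in progressions, effective form
-/

set_option autoImplicit false

open NumberField Complex Pool.Agent.UN

namespace Pool.Agent.CH

theorem EPR (hSYS : SYS_stmt) (hLIN : CHE.LIN_stmt) : EPAP_stmt := by
  classical
  intro n m hm
  have : NeZero m := ⟨hm.ne'⟩
  obtain ⟨C, hC1, hS⟩ := hSYS n m hm
  obtain ⟨A, hA1, hL⟩ := hLIN m C
  refine ⟨⌈A⌉₊, ⌈Real.exp A⌉₊, ?_⟩
  intro F M _ _ _ _ _ N r z g T hn hN hT hz hadj hg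
  -- the group
  set H : Subgroup (ZMod m)ˣ := (hz.autToPow F).range with hH
  have hspec : ∀ g : M ≃ₐ[F] M, z ^ ((hz.autToPow F g : (ZMod m)ˣ) : ZMod m).val = g z := fun g =>
    hz.autToPow_spec F g
  have hmem : ∀ u : (ZMod m)ˣ, u ∈ H ↔ ∃ g : M ≃ₐ[F] M, g z = z ^ (u : ZMod m).val := fun u => by
    constructor
    · rintro ⟨g, rfl⟩
      exact ⟨g, (hspec g).symm⟩
    · rintro ⟨g, hg⟩
      refine ⟨g, ?_⟩
      rw [← hspec g] at hg
      have h1 := hz.pow_inj (ZMod.val_lt _) (ZMod.val_lt _) hg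
      exact Units.ext (ZMod.val_injective m h1)
  -- the size of the discriminant
  have hD0 : discr F ≠ 0 := discr_ne_zero F
  have hN1 : 1 ≤ N := by
    have h1 : 0 < |discr F| := abs_pos.2 hD0
    omega
  have hN0 : (0 : ℝ) < N := by exact_mod_cast hN1
  have hN1' : (1 : ℝ) ≤ N := by exact_mod_cast hN1
  have hDc : Dc F ≤ N := by
    unfold Dc
    exact_mod_cast hN
  have hDc0 : 0 < Dc F := by
    unfold Dc
    exact abs_pos.2 (by exact_mod_cast hD0)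
  obtain ⟨l, hl⟩ : ∃ l : ℝ, l = 1 + Real.log N := ⟨_, rfl⟩
  have hl1 : 1 + Real.log (Dc F) ≤ l := by
    rw [hl]
    linarith [Real.log_le_log hDc0 hDc]
  obtain ⟨E, hE⟩ := hS F M z H l hn hz hadj hmem hl1
  -- the class of `r`
  have hr : r.Coprime m := by
    have h1 : IsPrimitiveRoot (g z) m := hz.map_of_injective g.injective
    rw [hg] at h1
    exact (hz.pow_iff_coprime hm r).1 h1
  obtain ⟨u, hu⟩ : ∃ u : (ZMod m)ˣ, (u : ZMod m) = ((r : ℕ) : ZMod m) := ⟨ZMod.unitOfCoprime r hr, ZMod.coe_unitOfCoprime r hr⟩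
  have huH : u ∈ H := by
    rw [hmem]
    refine ⟨g, ?_⟩
    have h1 : z ^ (r % orderOf z) = z ^ r := pow_mod_orderOf z r
    rw [← hz.eq_orderOf] at h1
    rw [hg, hu, ZMod.val_natCast, h1]
  have hcard : Fintype.card H ≤ m := by
    have h1 : Fintype.card H ≤ Fintype.card (ZMod m)ˣ := Fintype.card_le_of_injective _ Subtype.val_injective
    rw [ZMod.card_units_eq_totient] at h1
    exact h1.trans (Nat.totient_le m)
  have h1 := hL H l (bb F H) E hcard hE ⟨u, huH⟩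
  -- a prime outside `T`
  have hel : (T.card : ℝ) ≤ Real.exp l := by
    rw [hl, Real.exp_add, Real.exp_log hN0]
    have h2 : (T.card : ℝ) ≤ N := by exact_mod_cast hT
    have h3 : (1 : ℝ) ≤ Real.exp 1 := Real.one_le_exp (by norm_num)
    nlinarith
  obtain ⟨p, hp, hpT⟩ : ∃ p ∈ {p : ℕ | p.Prime ∧ (p : ℝ) ≤ Real.exp (A * l) ∧ bb F H ⟨u, huH⟩ p ≠ 0}, p ∉ T := by
    by_contra hcon
    push Not at hcon
    have h2 : {p : ℕ | p.Prime ∧ (p : ℝ) ≤ Real.exp (A * l) ∧ bb F H ⟨u, huH⟩ p ≠ 0} ⊆ (T : Set ℕ) := fun p hp => hcon p hp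
    have h3 := Set.ncard_le_ncard h2 T.finite_toSet
    rw [Set.ncard_coe_finset] at h3
    have h4 : (({p : ℕ | p.Prime ∧ (p : ℝ) ≤ Real.exp (A * l) ∧ bb F H ⟨u, huH⟩ p ≠ 0}.ncard : ℕ) : ℝ) ≤ T.card := by
      exact_mod_cast h3
    linarith
  obtain ⟨hp1, hp2, hp3⟩ := hp
  unfold bb at hp3
  split_ifs at hp3 with h4
  swap
  · exact absurd rfl hp3
  · obtain ⟨a, ha, -⟩ := Finset.exists_ne_zero_of_sum_ne_zero hp3
    have ha' : Ideal.absNorm a = p := by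
      rw [idl, Set.Finite.mem_toFinset] at ha
      exact ha
    refine ⟨p, a, hp1, hpT, ?_, ?_, ha'⟩
    · have h5 : (p : ℝ) ≤ (⌈Real.exp A⌉₊ : ℝ) * (N : ℝ) ^ ⌈A⌉₊ := by
        calc (p : ℝ) ≤ Real.exp (A * l) := hp2
          _ = Real.exp A * (N : ℝ) ^ A := by
              rw [hl, mul_add, mul_one, Real.exp_add, Real.rpow_def_of_pos hN0, mul_comm A (Real.log N)]
          _ ≤ (⌈Real.exp A⌉₊ : ℝ) * (N : ℝ) ^ ((⌈A⌉₊ : ℕ) : ℝ) := by
              gcongr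
              · exact Nat.le_ceil _
              · exact Nat.le_ceil _
          _ = (⌈Real.exp A⌉₊ : ℝ) * (N : ℝ) ^ ⌈A⌉₊ := by rw [Real.rpow_natCast]
      exact_mod_cast h5
    · have h5 : ((p : ℕ) : ZMod m) = ((r : ℕ) : ZMod m) := by rw [h4]; exact hu
      exact (ZMod.natCast_eq_natCast_iff p r m).1 h5

end Pool.Agent.CH
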