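import Pool.Agent.helper17.CH.SpecB
import Pool.Agent.helper9.Tors.Divs

/-!
# Project CH (MP_5628fe_nt), part B, row ERR
-/

set_option autoImplicit false

namespace Pool.Agent.CH

open Finset ArithmeticFunction
open GD (kp ks)

private theorem ERR_cop {r m : ℕ} (hm : Nat.Coprime m 30) (h30 : Nat.Coprime (r) 30)
    (h6 : ∀ d : ℕ, d ∣ r → d ∣ m → d ∣ 6) : Nat.Coprime r (30 * m) := by
  apply Nat.Coprime.mul_right h30
  rw [Nat.coprime_iff_gcd_eq_one]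
  have h1 : Nat.gcd r m ∣ 6 := h6 _ (Nat.gcd_dvd_left _ _) (Nat.gcd_dvd_right _ _)
  have h2 : Nat.gcd r m ∣ 30 := h1.trans (by norm_num)
  have h3 : Nat.gcd r m ∣ m := Nat.gcd_dvd_right _ _
  have h4 : Nat.gcd r m ∣ Nat.gcd m 30 := Nat.dvd_gcd h3 h2
  rw [hm] at h4
  exact Nat.dvd_one.mp h4

private theorem ERR_h (r : ℕ → ℕ) (hr : ClP r ∨ ClB r) :
    (∀ m : ℕ, 0 < m → Nat.Coprime m 30 → Nat.Coprime (r m) (30 * m)) ∧
    ∃ h : ℕ → ℕ, ∀ j, 7 ≤ j → 1 ≤ h j ∧ h j ≤ j + 6 ∧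
      ∀ m : ℕ, 0 < m → Nat.Coprime m 30 → ∀ d : ℕ, d ∣ m → j ≡ r m [MOD d] → d ∣ h j := by
  rcases hr with hr | hr
  · refine ⟨?_, fun j => j + 6, ?_⟩
    · intro m hm hm30
      obtain ⟨h1, h2⟩ := hr m hm hm30
      apply ERR_cop hm30
      · rw [Nat.coprime_iff_gcd_eq_one, h1.gcd_eq]
        norm_num
      · intro d hd1 hd2
        have h3 : d ∣ r m + 6 := hd2.trans h2
        exact (Nat.dvd_add_right hd1).mp h3
    · intro j hj
      refine ⟨Nat.succ_le_of_lt (Nat.succ_pos _), le_rfl, ?_⟩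
      intro m hm hm30 d hd hjd
      obtain ⟨-, h2⟩ := hr m hm hm30
      have h3 : d ∣ r m + 6 := hd.trans h2
      have h4 : j + 6 ≡ r m + 6 [MOD d] := Nat.ModEq.add_right 6 hjd
      exact (h4.dvd_iff dvd_rfl).mpr h3
  · refine ⟨?_, fun j => j - 6, ?_⟩
    · intro m hm hm30
      obtain ⟨h1, h2⟩ := hr m hm hm30
      apply ERR_cop hm30
      · rw [Nat.coprime_iff_gcd_eq_one, h1.gcd_eq]
        norm_num
      · intro d hd1 hd2
        have h3 : r m ≡ 6 [MOD d] := h2.of_dvd hd2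
        exact (h3.dvd_iff dvd_rfl).mp hd1
    · intro j hj
      refine ⟨by change 1 ≤ j - 6; omega, by change j - 6 ≤ j + 6; omega, ?_⟩
      intro m hm hm30 d hd hjd
      obtain ⟨-, h2⟩ := hr m hm hm30
      have h3 : r m ≡ 6 [MOD d] := h2.of_dvd hd
      have h4 : 6 ≡ j [MOD d] := (hjd.trans h3).symm
      exact (Nat.modEq_iff_dvd' (by omega)).mp h4

private theorem ERR_pairs (s t J : Finset ℕ) (h0 : 0 ∉ J) (T : ℝ)
    (hT : ∀ j ∈ J, (#j.divisors : ℝ) ≤ T) :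
    ((#((s ×ˢ t).filter fun w => w.1 * w.2 ∈ J) : ℕ) : ℝ) ≤ (#J : ℝ) * T := by
  have h1 : #((s ×ˢ t).filter fun w => w.1 * w.2 ∈ J) =
      ∑ j ∈ J, #(((s ×ˢ t).filter fun w => w.1 * w.2 ∈ J).filter fun w => w.1 * w.2 = j) :=
    Finset.card_eq_sum_card_fiberwise (fun w hw => (Finset.mem_filter.mp hw).2)
  rw [h1]
  push_cast
  calc ∑ j ∈ J, ((#(((s ×ˢ t).filter fun w => w.1 * w.2 ∈ J).filter fun w => w.1 * w.2 = j) : ℕ) : ℝ)
      ≤ ∑ _j ∈ J, T := by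
        apply Finset.sum_le_sum
        intro j hj
        refine le_trans ?_ (hT j hj)
        have hj0 : j ≠ 0 := fun h => h0 (h ▸ hj)
        have h2 : #(((s ×ˢ t).filter fun w => w.1 * w.2 ∈ J).filter fun w => w.1 * w.2 = j) ≤
            #j.divisors := by
          apply Finset.card_le_card_of_injOn (fun w : ℕ × ℕ => w.1)
          · intro w hw
            rw [Finset.mem_coe, Finset.mem_filter] at hw
            rw [Finset.mem_coe, Nat.mem_divisors]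
            exact ⟨⟨w.2, hw.2.symm⟩, hj0⟩
          · intro w hw w' hw' hww
            rw [Finset.mem_coe, Finset.mem_filter] at hw hw'
            simp only at hww
            have h3 : w.1 * w.2 = w.1 * w'.2 := by
              rw [hw.2, hww, hw'.2]
            have h4 : w.1 ≠ 0 := by
              intro h5
              apply hj0
              rw [← hw.2, h5, zero_mul]
            exact Prod.ext hww (Nat.eq_of_mul_eq_mul_left (Nat.pos_of_ne_zero h4) h3)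
        exact_mod_cast h2
    _ = (#J : ℝ) * T := by rw [Finset.sum_const, nsmul_eq_mul]

theorem ERR (h1 : KSM_stmt) : ERR_stmt := by
  classical
  intro ε hε hε1
  obtain ⟨C, hC, hKSM⟩ := h1
  obtain ⟨D, hD, hdiv⟩ := Pool.Agent.helper9.Tors.divisor_bound (ε / 64) (by positivity)
  set δ : ℝ := ε / 16 with hδ
  have hδ0 : 0 < δ := by positivity
  set M : ℝ := 18 * C * D ^ 2 * (1 + 1 / δ) ^ 2 with hM
  have hev : ∀ᶠ N : ℕ in Filter.atTop, M ≤ (N : ℝ) ^ (3 * ε / 8) :=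
    ((tendsto_rpow_atTop (by positivity : (0 : ℝ) < 3 * ε / 8)).comp
      tendsto_natCast_atTop_atTop).eventually_ge_atTop M
  obtain ⟨N₁, hN₁⟩ := Filter.eventually_atTop.mp hev
  refine ⟨max N₁ 15, ?_⟩
  intro N hN Q R ρ r α β M₁ M₂ K₁ K₂ hQ1 hQN hR hρ hr hα hβ
  have hNN₁ : N₁ ≤ N := le_trans (le_max_left _ _) hN
  have hN15 : 15 ≤ N := le_trans (le_max_right _ _) hN
  have hN1 : (1 : ℝ) ≤ (N : ℝ) := by exact_mod_cast (by omega : 1 ≤ N)
  have hN0 : (0 : ℝ) < (N : ℝ) := by linarith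
  have hρN : (N : ℝ) ≤ ρ := by
    refine le_trans ?_ hρ
    calc (N : ℝ) = (N : ℝ) ^ (1 : ℝ) := (Real.rpow_one _).symm
      _ ≤ (N : ℝ) ^ (1 + ε) := Real.rpow_le_rpow_of_exponent_le hN1 (by linarith)
  have hρ2 : 15 ≤ ρ := by
    have h2 : (15 : ℝ) ≤ (N : ℝ) := by exact_mod_cast hN15
    exact_mod_cast h2.trans hρN
  obtain ⟨hcop, h, hh⟩ := ERR_h r hr
  set S : ℕ → ℝ := fun j => ∑ m ∈ Mo Q, |kp R (30 * m) (r m) j| with hS
  -- the set of the products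
  set J : Finset ℕ := (Icc 1 (8 * N ^ 3)).filter fun j =>
    ∃ n ∈ Icc N (2 * N), n ^ 3 * (ρ - 1) ≤ j * ρ ∧ j ≤ n ^ 3 with hJ
  have hcond : ∀ j : ℕ, (∃ n ∈ Icc N (2 * N), n ^ 3 * (ρ - 1) ≤ j * ρ ∧ j ≤ n ^ 3) →
      7 ≤ j ∧ j ≤ 8 * N ^ 3 := by
    rintro j ⟨n, hn, h2, h3⟩
    rw [Finset.mem_Icc] at hn
    constructor
    · by_contra hcon
      have h4 : j ≤ 6 := by omega
      have h5 : 15 ^ 3 ≤ n ^ 3 := Nat.pow_le_pow_left (by omega) 3
      have h6 : n ^ 3 * (ρ - 1) ≤ 6 * ρ := h2.trans (Nat.mul_le_mul_right ρ h4)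
      have h7 : 15 ^ 3 * (ρ - 1) ≤ 6 * ρ := (Nat.mul_le_mul_right _ h5).trans h6
      omega
    · refine h3.trans ?_
      calc n ^ 3 ≤ (2 * N) ^ 3 := Nat.pow_le_pow_left hn.2 3
        _ = 8 * N ^ 3 := by ring
  have hJmem : ∀ j, j ∈ J ↔ ∃ n ∈ Icc N (2 * N), n ^ 3 * (ρ - 1) ≤ j * ρ ∧ j ≤ n ^ 3 := by
    intro j
    rw [hJ, Finset.mem_filter, Finset.mem_Icc]
    constructor
    · exact fun h2 => h2.2
    · intro h2
      have h3 := hcond j h2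
      exact ⟨⟨by omega, h3.2⟩, h2⟩
  have h0J : 0 ∉ J := by
    intro h2
    have := hcond 0 ((hJmem 0).mp h2)
    omega
  -- size of J
  have hJcard : (#J : ℝ) ≤ 18 * (N : ℝ) ^ (3 - ε) := by
    have h2 : J ⊆ (Icc N (2 * N)).biUnion (fun n => Icc (n ^ 3 - n ^ 3 / ρ) (n ^ 3)) := by
      intro j hj
      obtain ⟨n, hn, h3, h4⟩ := (hJmem j).mp hj
      rw [Finset.mem_biUnion]
      refine ⟨n, hn, ?_⟩
      rw [Finset.mem_Icc]
      refine ⟨?_, h4⟩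
      have h5 : (n ^ 3 - j) * ρ ≤ n ^ 3 := by
        obtain ⟨ρ', rfl⟩ : ∃ ρ', ρ = ρ' + 1 := ⟨ρ - 1, by omega⟩
        obtain ⟨k, hk⟩ := Nat.exists_eq_add_of_le h4
        rw [hk] at h3 ⊢
        rw [Nat.add_sub_cancel_left]
        rw [Nat.add_sub_cancel] at h3
        nlinarith
      have h6 : n ^ 3 - j ≤ n ^ 3 / ρ := (Nat.le_div_iff_mul_le (by omega)).mpr h5
      omega
    have h3 : #J ≤ (N + 1) * (8 * N ^ 3 / ρ + 1) := by
      calc #J ≤ #((Icc N (2 * N)).biUnion (fun n => Icc (n ^ 3 - n ^ 3 / ρ) (n ^ 3))) :=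
            Finset.card_le_card h2
        _ ≤ ∑ n ∈ Icc N (2 * N), #(Icc (n ^ 3 - n ^ 3 / ρ) (n ^ 3)) := Finset.card_biUnion_le
        _ ≤ ∑ _n ∈ Icc N (2 * N), (8 * N ^ 3 / ρ + 1) := by
            apply Finset.sum_le_sum
            intro n hn
            rw [Finset.mem_Icc] at hn
            rw [Nat.card_Icc]
            have h4 : n ^ 3 / ρ ≤ 8 * N ^ 3 / ρ := by
              apply Nat.div_le_div_right
              calc n ^ 3 ≤ (2 * N) ^ 3 := Nat.pow_le_pow_left hn.2 3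
                _ = 8 * N ^ 3 := by ring
            have h5 : n ^ 3 / ρ ≤ n ^ 3 := Nat.div_le_self _ _
            generalize 8 * N ^ 3 / ρ = u at h4 ⊢
            generalize n ^ 3 / ρ = v at h4 h5 ⊢
            omega
        _ = (N + 1) * (8 * N ^ 3 / ρ + 1) := by
            rw [Finset.sum_const, Nat.card_Icc, smul_eq_mul]
            congr 1
            omega
    have h4 : ((8 * N ^ 3 / ρ : ℕ) : ℝ) ≤ 8 * (N : ℝ) ^ (2 - ε) := by
      have h5 : ((8 * N ^ 3 / ρ : ℕ) : ℝ) ≤ ((8 * N ^ 3 : ℕ) : ℝ) / (ρ : ℝ) := Nat.cast_div_le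
      have hρ0 : (0 : ℝ) < ρ := by linarith
      have h6 : ((8 * N ^ 3 : ℕ) : ℝ) / (ρ : ℝ) ≤ ((8 * N ^ 3 : ℕ) : ℝ) / (N : ℝ) ^ (1 + ε) :=
        div_le_div_of_nonneg_left (Nat.cast_nonneg _) (by positivity) hρ
      refine h5.trans (h6.trans (le_of_eq ?_))
      push_cast
      have h7 : (N : ℝ) ^ (3 : ℕ) = (N : ℝ) ^ (3 : ℝ) := by
        rw [← Real.rpow_natCast]; norm_num
      rw [h7, mul_div_assoc, ← Real.rpow_sub hN0]
      congr 2
      ring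
    have h8 : (1 : ℝ) ≤ (N : ℝ) ^ (2 - ε) := Real.one_le_rpow hN1 (by linarith)
    have h9 : (#J : ℝ) ≤ ((N : ℝ) + 1) * (((8 * N ^ 3 / ρ : ℕ) : ℝ) + 1) := by exact_mod_cast h3
    calc (#J : ℝ) ≤ ((N : ℝ) + 1) * (((8 * N ^ 3 / ρ : ℕ) : ℝ) + 1) := h9
      _ ≤ (2 * (N : ℝ)) * (9 * (N : ℝ) ^ (2 - ε)) := by
          apply mul_le_mul
          · linarith
          · linarith
          · positivity
          · positivity
      _ = 18 * (N : ℝ) ^ (3 - ε) := by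
          have h10 : (N : ℝ) ^ (3 - ε) = (N : ℝ) ^ (2 - ε) * (N : ℝ) := by
            rw [show (3 : ℝ) - ε = (2 - ε) + 1 by ring, Real.rpow_add hN0, Real.rpow_one]
          rw [h10]
          ring
  -- divisors
  have hdivj : ∀ n : ℕ, 1 ≤ n → n ≤ 8 * N ^ 3 + 6 → (#n.divisors : ℝ) ≤ D * (N : ℝ) ^ δ := by
    intro n hn1 hn2
    have h2 := hdiv n (by omega)
    have h3 : (n : ℝ) ≤ (N : ℝ) ^ (4 : ℝ) := by
      have h4 : n ≤ N ^ 4 := by
        have h5 : 8 * N ^ 3 + 6 ≤ N ^ 4 := by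
          have h6 : 15 * N ^ 3 ≤ N * N ^ 3 := Nat.mul_le_mul_right _ hN15
          have h7 : 15 ^ 3 ≤ N ^ 3 := Nat.pow_le_pow_left hN15 3
          have h8 : N ^ 4 = N * N ^ 3 := by ring
          rw [h8]
          omega
        omega
      have h9 : (N : ℝ) ^ (4 : ℝ) = ((N ^ 4 : ℕ) : ℝ) := by
        push_cast
        rw [← Real.rpow_natCast]
        norm_num
      rw [h9]
      exact_mod_cast h4
    refine h2.trans ?_
    apply mul_le_mul_of_nonneg_left _ hD.le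
    calc (n : ℝ) ^ (ε / 64) ≤ ((N : ℝ) ^ (4 : ℝ)) ^ (ε / 64) :=
          Real.rpow_le_rpow (Nat.cast_nonneg _) h3 (by positivity)
      _ = (N : ℝ) ^ δ := by
          rw [← Real.rpow_mul hN0.le, hδ]
          congr 1
          ring
  have hlogQ : 0 ≤ Real.log Q := Real.log_nonneg hQ1
  have hlog : 1 + Real.log Q ≤ (1 + 1 / δ) * (N : ℝ) ^ δ := by
    have h2 : Real.log Q ≤ Real.log N := Real.log_le_log (by linarith) hQN
    have h3 : Real.log (N : ℝ) ≤ (N : ℝ) ^ δ / δ := Real.log_le_rpow_div hN0.le hδ0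
    have h4 : (1 : ℝ) ≤ (N : ℝ) ^ δ := Real.one_le_rpow hN1 hδ0.le
    calc 1 + Real.log Q ≤ (N : ℝ) ^ δ + (N : ℝ) ^ δ / δ := by linarith
      _ = (1 + 1 / δ) * (N : ℝ) ^ δ := by ring
  set B : ℝ := C * ((1 + 1 / δ) * (N : ℝ) ^ δ) ^ 2 * (D * (N : ℝ) ^ δ) with hB
  have hB0 : 0 ≤ B := by positivity
  have hSB : ∀ j ∈ J, S j ≤ B := by
    intro j hj
    have h2 := hcond j ((hJmem j).mp hj)
    obtain ⟨h3, h4, h5⟩ := hh j h2.1
    have h6 := hKSM Q R j (h j) r hQ1 h3 hcop h5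
    have h7 := hdivj (h j) h3 (by omega)
    calc S j ≤ C * (1 + Real.log Q) ^ 2 * (#(h j).divisors : ℝ) := h6
      _ ≤ C * ((1 + 1 / δ) * (N : ℝ) ^ δ) ^ 2 * (D * (N : ℝ) ^ δ) := by
          apply mul_le_mul
          · apply mul_le_mul_of_nonneg_left _ hC.le
            exact pow_le_pow_left₀ (by linarith) hlog 2
          · exact h7
          · positivity
          · positivity
  have hS0 : ∀ j, 0 ≤ S j := fun j => Finset.sum_nonneg (fun m _ => abs_nonneg _)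
  -- the sum
  have hterm : ∀ a ∈ Ioc M₁ M₂, ∀ b ∈ Ioc K₁ K₂, |α a| * |β b| *
      ((if ∃ n ∈ Icc N (2 * N), n ^ 3 * (ρ - 1) ≤ a * b * ρ ∧ a * b ≤ n ^ 3 then (1 : ℝ) else 0) *
        ∑ m ∈ Mo Q, |kp R (30 * m) (r m) (a * b)|) ≤
      (N : ℝ) ^ (2 * δ) * B * (if a * b ∈ J then 1 else 0) := by
    intro a _ b _
    by_cases hab : ∃ n ∈ Icc N (2 * N), n ^ 3 * (ρ - 1) ≤ a * b * ρ ∧ a * b ≤ n ^ 3
    · have h2 : a * b ∈ J := (hJmem _).mpr hab
      rw [if_pos hab, if_pos h2, one_mul, mul_one]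
      have h3 : |α a| * |β b| ≤ (N : ℝ) ^ (2 * δ) := by
        calc |α a| * |β b| ≤ (N : ℝ) ^ δ * (N : ℝ) ^ δ :=
              mul_le_mul (hα a) (hβ b) (abs_nonneg _) (by positivity)
          _ = (N : ℝ) ^ (2 * δ) := by
              rw [← Real.rpow_add hN0]
              congr 1
              ring
      exact mul_le_mul h3 (hSB _ h2) (hS0 _) (by positivity)
    · have h2 : a * b ∉ J := fun h3 => hab ((hJmem _).mp h3)
      rw [if_neg hab, if_neg h2, zero_mul, mul_zero, mul_zero]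
  have hsum : ∑ a ∈ Ioc M₁ M₂, ∑ b ∈ Ioc K₁ K₂, |α a| * |β b| *
      ((if ∃ n ∈ Icc N (2 * N), n ^ 3 * (ρ - 1) ≤ a * b * ρ ∧ a * b ≤ n ^ 3 then (1 : ℝ) else 0) *
        ∑ m ∈ Mo Q, |kp R (30 * m) (r m) (a * b)|) ≤
      (N : ℝ) ^ (2 * δ) * B * ((#J : ℝ) * (D * (N : ℝ) ^ δ)) := by
    calc _ ≤ ∑ a ∈ Ioc M₁ M₂, ∑ b ∈ Ioc K₁ K₂,
            (N : ℝ) ^ (2 * δ) * B * (if a * b ∈ J then (1 : ℝ) else 0) :=
          Finset.sum_le_sum fun a ha => Finset.sum_le_sum fun b hb => hterm a ha b hb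
      _ = (N : ℝ) ^ (2 * δ) * B *
          ((#((Ioc M₁ M₂ ×ˢ Ioc K₁ K₂).filter fun w => w.1 * w.2 ∈ J) : ℕ) : ℝ) := by
          rw [← Finset.sum_product', ← Finset.mul_sum, Finset.sum_boole]
      _ ≤ (N : ℝ) ^ (2 * δ) * B * ((#J : ℝ) * (D * (N : ℝ) ^ δ)) := by
          apply mul_le_mul_of_nonneg_left _ (by positivity)
          apply ERR_pairs _ _ _ h0J
          intro j hj
          have h2 := hcond j ((hJmem j).mp hj)
          exact hdivj j (by omega) (by omega)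
  refine hsum.trans ?_
  have hJ2 : (#J : ℝ) * (D * (N : ℝ) ^ δ) ≤ 18 * (N : ℝ) ^ (3 - ε) * (D * (N : ℝ) ^ δ) :=
    mul_le_mul_of_nonneg_right hJcard (by positivity)
  refine (mul_le_mul_of_nonneg_left hJ2 (by positivity)).trans ?_
  have hfin : (N : ℝ) ^ (2 * δ) * B * (18 * (N : ℝ) ^ (3 - ε) * (D * (N : ℝ) ^ δ)) =
      M * (N : ℝ) ^ (3 - 5 * ε / 8) := by
    have h2 : (N : ℝ) ^ (3 - 5 * ε / 8) =
        (N : ℝ) ^ (2 * δ) * ((N : ℝ) ^ δ * (N : ℝ) ^ δ) * (N : ℝ) ^ δ *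
          ((N : ℝ) ^ (3 - ε) * (N : ℝ) ^ δ) := by
      rw [← Real.rpow_add hN0, ← Real.rpow_add hN0, ← Real.rpow_add hN0, ← Real.rpow_add hN0,
        ← Real.rpow_add hN0, hδ]
      congr 1
      ring
    rw [h2, hB, hM]
    ring
  rw [hfin]
  calc M * (N : ℝ) ^ (3 - 5 * ε / 8) ≤ (N : ℝ) ^ (3 * ε / 8) * (N : ℝ) ^ (3 - 5 * ε / 8) :=
        mul_le_mul_of_nonneg_right (hN₁ N hNN₁) (by positivity)
    _ = (N : ℝ) ^ (3 - ε / 4) := by
        rw [← Real.rpow_add hN0]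
        congr 1
        ring

end Pool.Agent.CH
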